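import Mathlib

/-!
# The irreducible Coxeter group of type `H₃` is integrable

`W(H₃) ≅ L × C₂` with `L` the (perfect) rotation subgroup, so it is isomorphic to the derived
subgroup of `L × D₈`.
-/

open scoped commutatorElement

namespace Pool.Agent.Results.MP_417677_al.IntegrableH3

/-- The Coxeter diagram of a Coxeter matrix: distinct `s`, `t` are joined by an edge iff `m(s,t)` is
at least `3` or infinite (Mathlib encodes `∞` by `0`), that is, iff `m(s,t) ≠ 2`. -/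
def diagram {B : Type} (M : CoxeterMatrix B) : SimpleGraph B where
  Adj s t := s ≠ t ∧ M s t ≠ 2
  symm := ⟨fun s t h => ⟨h.1.symm, by rw [M.symmetric]; exact h.2⟩⟩
  loopless := ⟨fun _ h => h.1 rfl⟩

section

variable {W : Type} [Group W] (cs : CoxeterSystem CoxeterMatrix.H₃ W)

theorem mv {l r : List (Fin 3)} (h : cs.wordProd l = cs.wordProd r) (pre suf : List (Fin 3)) :
    cs.wordProd (pre ++ (l ++ suf)) = cs.wordProd (pre ++ (r ++ suf)) := by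
  simp [CoxeterSystem.wordProd_append, h]

theorem b01 : cs.wordProd [0, 1, 0] = cs.wordProd [1, 0, 1] := by
  have h : (cs.simple 0 * cs.simple 1) ^ 3 = 1 := cs.simple_mul_simple_pow 0 1
  have h0 := cs.simple_mul_simple_self 0
  have h1 := cs.simple_mul_simple_self 1
  simp only [CoxeterSystem.wordProd_cons, CoxeterSystem.wordProd_nil, mul_one]
  generalize cs.simple 0 = a at *
  generalize cs.simple 1 = b at *
  have ha : a⁻¹ = a := inv_eq_of_mul_eq_one_left h0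
  have hb : b⁻¹ = b := inv_eq_of_mul_eq_one_left h1
  have h2 : (a * (b * a)) * (b * (a * b)) = 1 := by
    rw [← h]; simp [pow_succ, mul_assoc]
  rw [mul_eq_one_iff_eq_inv] at h2
  rw [h2]
  simp [ha, hb, mul_assoc]

theorem b02 : cs.wordProd [0, 2] = cs.wordProd [2, 0] := by
  have h : (cs.simple 0 * cs.simple 2) ^ 2 = 1 := cs.simple_mul_simple_pow 0 2
  have h0 := cs.simple_mul_simple_self 0
  have h1 := cs.simple_mul_simple_self 2
  simp only [CoxeterSystem.wordProd_cons, CoxeterSystem.wordProd_nil, mul_one]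
  generalize cs.simple 0 = a at *
  generalize cs.simple 2 = b at *
  have ha : a⁻¹ = a := inv_eq_of_mul_eq_one_left h0
  have hb : b⁻¹ = b := inv_eq_of_mul_eq_one_left h1
  have h2 : (a * b) * (a * b) = 1 := by
    rw [← h]; simp [pow_succ, mul_assoc]
  rw [mul_eq_one_iff_eq_inv] at h2
  rw [h2]
  simp [ha, hb]

theorem b12 : cs.wordProd [1, 2, 1, 2, 1] = cs.wordProd [2, 1, 2, 1, 2] := by
  have h : (cs.simple 1 * cs.simple 2) ^ 5 = 1 := cs.simple_mul_simple_pow 1 2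
  have h0 := cs.simple_mul_simple_self 1
  have h1 := cs.simple_mul_simple_self 2
  simp only [CoxeterSystem.wordProd_cons, CoxeterSystem.wordProd_nil, mul_one]
  generalize cs.simple 1 = a at *
  generalize cs.simple 2 = b at *
  have ha : a⁻¹ = a := inv_eq_of_mul_eq_one_left h0
  have hb : b⁻¹ = b := inv_eq_of_mul_eq_one_left h1
  have h2 : (a * (b * (a * (b * a)))) * (b * (a * (b * (a * b)))) = 1 := by
    rw [← h]; simp [pow_succ, mul_assoc]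
  rw [mul_eq_one_iff_eq_inv] at h2
  rw [h2]
  simp [ha, hb, mul_assoc]

theorem rev_w0 : cs.wordProd [0, 1, 2, 0, 1, 2, 0, 1, 2, 0, 1, 2, 0, 1, 2] =
    cs.wordProd [2, 1, 0, 2, 1, 0, 2, 1, 0, 2, 1, 0, 2, 1, 0] := by
  calc cs.wordProd [0, 1, 2, 0, 1, 2, 0, 1, 2, 0, 1, 2, 0, 1, 2]
      _ = cs.wordProd [0, 1, 0, 2, 1, 2, 0, 1, 2, 0, 1, 2, 0, 1, 2] :=
        mv cs ((b02 cs).symm) [0, 1] [1, 2, 0, 1, 2, 0, 1, 2, 0, 1, 2]
      _ = cs.wordProd [1, 0, 1, 2, 1, 2, 0, 1, 2, 0, 1, 2, 0, 1, 2] :=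
        mv cs (b01 cs) [] [2, 1, 2, 0, 1, 2, 0, 1, 2, 0, 1, 2]
      _ = cs.wordProd [1, 0, 1, 2, 1, 2, 0, 1, 0, 2, 1, 2, 0, 1, 2] :=
        mv cs ((b02 cs).symm) [1, 0, 1, 2, 1, 2, 0, 1] [1, 2, 0, 1, 2]
      _ = cs.wordProd [1, 0, 1, 2, 1, 2, 1, 0, 1, 2, 1, 2, 0, 1, 2] :=
        mv cs (b01 cs) [1, 0, 1, 2, 1, 2] [2, 1, 2, 0, 1, 2]
      _ = cs.wordProd [1, 0, 2, 1, 2, 1, 2, 0, 1, 2, 1, 2, 0, 1, 2] :=
        mv cs (b12 cs) [1, 0] [0, 1, 2, 1, 2, 0, 1, 2]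
      _ = cs.wordProd [1, 2, 0, 1, 2, 1, 2, 0, 1, 2, 1, 2, 0, 1, 2] :=
        mv cs (b02 cs) [1] [1, 2, 1, 2, 0, 1, 2, 1, 2, 0, 1, 2]
      _ = cs.wordProd [1, 2, 0, 1, 2, 1, 0, 2, 1, 2, 1, 2, 0, 1, 2] :=
        mv cs ((b02 cs).symm) [1, 2, 0, 1, 2, 1] [1, 2, 1, 2, 0, 1, 2]
      _ = cs.wordProd [1, 2, 0, 1, 2, 1, 0, 1, 2, 1, 2, 1, 0, 1, 2] :=
        mv cs ((b12 cs).symm) [1, 2, 0, 1, 2, 1, 0] [0, 1, 2]
      _ = cs.wordProd [1, 2, 0, 1, 2, 0, 1, 0, 2, 1, 2, 1, 0, 1, 2] :=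
        mv cs ((b01 cs).symm) [1, 2, 0, 1, 2] [2, 1, 2, 1, 0, 1, 2]
      _ = cs.wordProd [1, 2, 0, 1, 0, 2, 1, 0, 2, 1, 2, 1, 0, 1, 2] :=
        mv cs ((b02 cs).symm) [1, 2, 0, 1] [1, 0, 2, 1, 2, 1, 0, 1, 2]
      _ = cs.wordProd [1, 2, 1, 0, 1, 2, 1, 0, 2, 1, 2, 1, 0, 1, 2] :=
        mv cs (b01 cs) [1, 2] [2, 1, 0, 2, 1, 2, 1, 0, 1, 2]
      _ = cs.wordProd [1, 2, 1, 0, 1, 2, 1, 2, 0, 1, 2, 1, 0, 1, 2] :=
        mv cs (b02 cs) [1, 2, 1, 0, 1, 2, 1] [1, 2, 1, 0, 1, 2]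
      _ = cs.wordProd [1, 2, 1, 0, 1, 2, 1, 2, 0, 1, 2, 0, 1, 0, 2] :=
        mv cs ((b01 cs).symm) [1, 2, 1, 0, 1, 2, 1, 2, 0, 1, 2] [2]
      _ = cs.wordProd [1, 2, 1, 0, 1, 2, 1, 2, 0, 1, 0, 2, 1, 0, 2] :=
        mv cs ((b02 cs).symm) [1, 2, 1, 0, 1, 2, 1, 2, 0, 1] [1, 0, 2]
      _ = cs.wordProd [1, 2, 1, 0, 1, 2, 1, 2, 1, 0, 1, 2, 1, 0, 2] :=
        mv cs (b01 cs) [1, 2, 1, 0, 1, 2, 1, 2] [2, 1, 0, 2]
      _ = cs.wordProd [1, 2, 1, 0, 2, 1, 2, 1, 2, 0, 1, 2, 1, 0, 2] :=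
        mv cs (b12 cs) [1, 2, 1, 0] [0, 1, 2, 1, 0, 2]
      _ = cs.wordProd [1, 2, 1, 2, 0, 1, 2, 1, 2, 0, 1, 2, 1, 0, 2] :=
        mv cs (b02 cs) [1, 2, 1] [1, 2, 1, 2, 0, 1, 2, 1, 0, 2]
      _ = cs.wordProd [1, 2, 1, 2, 0, 1, 2, 1, 0, 2, 1, 2, 1, 0, 2] :=
        mv cs ((b02 cs).symm) [1, 2, 1, 2, 0, 1, 2, 1] [1, 2, 1, 0, 2]
      _ = cs.wordProd [1, 2, 1, 2, 0, 1, 2, 1, 0, 2, 1, 2, 1, 2, 0] :=
        mv cs (b02 cs) [1, 2, 1, 2, 0, 1, 2, 1, 0, 2, 1, 2, 1] []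
      _ = cs.wordProd [1, 2, 1, 2, 0, 1, 2, 1, 0, 1, 2, 1, 2, 1, 0] :=
        mv cs ((b12 cs).symm) [1, 2, 1, 2, 0, 1, 2, 1, 0] [0]
      _ = cs.wordProd [1, 2, 1, 2, 0, 1, 2, 0, 1, 0, 2, 1, 2, 1, 0] :=
        mv cs ((b01 cs).symm) [1, 2, 1, 2, 0, 1, 2] [2, 1, 2, 1, 0]
      _ = cs.wordProd [1, 2, 1, 2, 0, 1, 0, 2, 1, 0, 2, 1, 2, 1, 0] :=
        mv cs ((b02 cs).symm) [1, 2, 1, 2, 0, 1] [1, 0, 2, 1, 2, 1, 0]
      _ = cs.wordProd [1, 2, 1, 2, 1, 0, 1, 2, 1, 0, 2, 1, 2, 1, 0] :=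
        mv cs (b01 cs) [1, 2, 1, 2] [2, 1, 0, 2, 1, 2, 1, 0]
      _ = cs.wordProd [2, 1, 2, 1, 2, 0, 1, 2, 1, 0, 2, 1, 2, 1, 0] :=
        mv cs (b12 cs) [] [0, 1, 2, 1, 0, 2, 1, 2, 1, 0]
      _ = cs.wordProd [2, 1, 2, 1, 0, 2, 1, 2, 1, 0, 2, 1, 2, 1, 0] :=
        mv cs ((b02 cs).symm) [2, 1, 2, 1] [1, 2, 1, 0, 2, 1, 2, 1, 0]
      _ = cs.wordProd [2, 1, 2, 1, 0, 2, 1, 2, 1, 2, 0, 1, 2, 1, 0] :=
        mv cs (b02 cs) [2, 1, 2, 1, 0, 2, 1, 2, 1] [1, 2, 1, 0]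
      _ = cs.wordProd [2, 1, 2, 1, 0, 1, 2, 1, 2, 1, 0, 1, 2, 1, 0] :=
        mv cs ((b12 cs).symm) [2, 1, 2, 1, 0] [0, 1, 2, 1, 0]
      _ = cs.wordProd [2, 1, 2, 0, 1, 0, 2, 1, 2, 1, 0, 1, 2, 1, 0] :=
        mv cs ((b01 cs).symm) [2, 1, 2] [2, 1, 2, 1, 0, 1, 2, 1, 0]
      _ = cs.wordProd [2, 1, 0, 2, 1, 0, 2, 1, 2, 1, 0, 1, 2, 1, 0] :=
        mv cs ((b02 cs).symm) [2, 1] [1, 0, 2, 1, 2, 1, 0, 1, 2, 1, 0]
      _ = cs.wordProd [2, 1, 0, 2, 1, 0, 2, 1, 2, 0, 1, 0, 2, 1, 0] :=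
        mv cs ((b01 cs).symm) [2, 1, 0, 2, 1, 0, 2, 1, 2] [2, 1, 0]
      _ = cs.wordProd [2, 1, 0, 2, 1, 0, 2, 1, 0, 2, 1, 0, 2, 1, 0] :=
        mv cs ((b02 cs).symm) [2, 1, 0, 2, 1, 0, 2, 1] [1, 0, 2, 1, 0]

theorem w0_start0 : cs.wordProd [0, 1, 2, 0, 1, 2, 0, 1, 2, 0, 1, 2, 0, 1, 2] =
    cs.wordProd [0, 1, 2, 0, 1, 2, 0, 1, 2, 0, 1, 2, 0, 1, 2] := rfl
theorem w0_mid0 : cs.wordProd [1, 2, 0, 1, 2, 0, 1, 2, 0, 1, 2, 0, 1, 2] =
    cs.wordProd [1, 2, 0, 1, 2, 0, 1, 2, 0, 1, 2, 0, 1, 2] := rfl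
theorem w0_end0 : cs.wordProd [0, 1, 2, 0, 1, 2, 0, 1, 2, 0, 1, 2, 0, 1, 2] =
    cs.wordProd [1, 2, 0, 1, 2, 0, 1, 2, 0, 1, 2, 0, 1, 2, 0] := by
  calc cs.wordProd [0, 1, 2, 0, 1, 2, 0, 1, 2, 0, 1, 2, 0, 1, 2]
      _ = cs.wordProd [0, 1, 0, 2, 1, 2, 0, 1, 2, 0, 1, 2, 0, 1, 2] :=
        mv cs ((b02 cs).symm) [0, 1] [1, 2, 0, 1, 2, 0, 1, 2, 0, 1, 2]
      _ = cs.wordProd [1, 0, 1, 2, 1, 2, 0, 1, 2, 0, 1, 2, 0, 1, 2] :=
        mv cs (b01 cs) [] [2, 1, 2, 0, 1, 2, 0, 1, 2, 0, 1, 2]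
      _ = cs.wordProd [1, 0, 1, 2, 1, 2, 0, 1, 0, 2, 1, 2, 0, 1, 2] :=
        mv cs ((b02 cs).symm) [1, 0, 1, 2, 1, 2, 0, 1] [1, 2, 0, 1, 2]
      _ = cs.wordProd [1, 0, 1, 2, 1, 2, 1, 0, 1, 2, 1, 2, 0, 1, 2] :=
        mv cs (b01 cs) [1, 0, 1, 2, 1, 2] [2, 1, 2, 0, 1, 2]
      _ = cs.wordProd [1, 0, 2, 1, 2, 1, 2, 0, 1, 2, 1, 2, 0, 1, 2] :=
        mv cs (b12 cs) [1, 0] [0, 1, 2, 1, 2, 0, 1, 2]
      _ = cs.wordProd [1, 2, 0, 1, 2, 1, 2, 0, 1, 2, 1, 2, 0, 1, 2] :=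
        mv cs (b02 cs) [1] [1, 2, 1, 2, 0, 1, 2, 1, 2, 0, 1, 2]
      _ = cs.wordProd [1, 2, 0, 1, 2, 1, 0, 2, 1, 2, 1, 2, 0, 1, 2] :=
        mv cs ((b02 cs).symm) [1, 2, 0, 1, 2, 1] [1, 2, 1, 2, 0, 1, 2]
      _ = cs.wordProd [1, 2, 0, 1, 2, 1, 0, 1, 2, 1, 2, 1, 0, 1, 2] :=
        mv cs ((b12 cs).symm) [1, 2, 0, 1, 2, 1, 0] [0, 1, 2]
      _ = cs.wordProd [1, 2, 0, 1, 2, 0, 1, 0, 2, 1, 2, 1, 0, 1, 2] :=
        mv cs ((b01 cs).symm) [1, 2, 0, 1, 2] [2, 1, 2, 1, 0, 1, 2]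
      _ = cs.wordProd [1, 2, 0, 1, 2, 0, 1, 2, 0, 1, 2, 1, 0, 1, 2] :=
        mv cs (b02 cs) [1, 2, 0, 1, 2, 0, 1] [1, 2, 1, 0, 1, 2]
      _ = cs.wordProd [1, 2, 0, 1, 2, 0, 1, 2, 0, 1, 2, 0, 1, 0, 2] :=
        mv cs ((b01 cs).symm) [1, 2, 0, 1, 2, 0, 1, 2, 0, 1, 2] [2]
      _ = cs.wordProd [1, 2, 0, 1, 2, 0, 1, 2, 0, 1, 2, 0, 1, 2, 0] :=
        mv cs (b02 cs) [1, 2, 0, 1, 2, 0, 1, 2, 0, 1, 2, 0, 1] []

theorem w0_start1 : cs.wordProd [0, 1, 2, 0, 1, 2, 0, 1, 2, 0, 1, 2, 0, 1, 2] =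
    cs.wordProd [1, 0, 1, 2, 1, 2, 0, 1, 2, 0, 1, 2, 0, 1, 2] := by
  calc cs.wordProd [0, 1, 2, 0, 1, 2, 0, 1, 2, 0, 1, 2, 0, 1, 2]
      _ = cs.wordProd [0, 1, 0, 2, 1, 2, 0, 1, 2, 0, 1, 2, 0, 1, 2] :=
        mv cs ((b02 cs).symm) [0, 1] [1, 2, 0, 1, 2, 0, 1, 2, 0, 1, 2]
      _ = cs.wordProd [1, 0, 1, 2, 1, 2, 0, 1, 2, 0, 1, 2, 0, 1, 2] :=
        mv cs (b01 cs) [] [2, 1, 2, 0, 1, 2, 0, 1, 2, 0, 1, 2]

theorem w0_mid1 : cs.wordProd [0, 1, 2, 1, 2, 0, 1, 2, 0, 1, 2, 0, 1, 2] =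
    cs.wordProd [0, 1, 2, 1, 2, 0, 1, 2, 0, 1, 2, 0, 1, 2] := rfl
theorem w0_end1 : cs.wordProd [0, 1, 2, 0, 1, 2, 0, 1, 2, 0, 1, 2, 0, 1, 2] =
    cs.wordProd [0, 1, 2, 1, 2, 0, 1, 2, 0, 1, 2, 0, 1, 2, 1] := by
  calc cs.wordProd [0, 1, 2, 0, 1, 2, 0, 1, 2, 0, 1, 2, 0, 1, 2]
      _ = cs.wordProd [0, 1, 2, 0, 1, 0, 2, 1, 2, 0, 1, 2, 0, 1, 2] :=
        mv cs ((b02 cs).symm) [0, 1, 2, 0, 1] [1, 2, 0, 1, 2, 0, 1, 2]
      _ = cs.wordProd [0, 1, 2, 1, 0, 1, 2, 1, 2, 0, 1, 2, 0, 1, 2] :=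
        mv cs (b01 cs) [0, 1, 2] [2, 1, 2, 0, 1, 2, 0, 1, 2]
      _ = cs.wordProd [0, 1, 2, 1, 0, 1, 2, 1, 2, 0, 1, 0, 2, 1, 2] :=
        mv cs ((b02 cs).symm) [0, 1, 2, 1, 0, 1, 2, 1, 2, 0, 1] [1, 2]
      _ = cs.wordProd [0, 1, 2, 1, 0, 1, 2, 1, 2, 1, 0, 1, 2, 1, 2] :=
        mv cs (b01 cs) [0, 1, 2, 1, 0, 1, 2, 1, 2] [2, 1, 2]
      _ = cs.wordProd [0, 1, 2, 1, 0, 2, 1, 2, 1, 2, 0, 1, 2, 1, 2] :=
        mv cs (b12 cs) [0, 1, 2, 1, 0] [0, 1, 2, 1, 2]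
      _ = cs.wordProd [0, 1, 2, 1, 2, 0, 1, 2, 1, 2, 0, 1, 2, 1, 2] :=
        mv cs (b02 cs) [0, 1, 2, 1] [1, 2, 1, 2, 0, 1, 2, 1, 2]
      _ = cs.wordProd [0, 1, 2, 1, 2, 0, 1, 2, 1, 0, 2, 1, 2, 1, 2] :=
        mv cs ((b02 cs).symm) [0, 1, 2, 1, 2, 0, 1, 2, 1] [1, 2, 1, 2]
      _ = cs.wordProd [0, 1, 2, 1, 2, 0, 1, 2, 1, 0, 1, 2, 1, 2, 1] :=
        mv cs ((b12 cs).symm) [0, 1, 2, 1, 2, 0, 1, 2, 1, 0] []
      _ = cs.wordProd [0, 1, 2, 1, 2, 0, 1, 2, 0, 1, 0, 2, 1, 2, 1] :=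
        mv cs ((b01 cs).symm) [0, 1, 2, 1, 2, 0, 1, 2] [2, 1, 2, 1]
      _ = cs.wordProd [0, 1, 2, 1, 2, 0, 1, 2, 0, 1, 2, 0, 1, 2, 1] :=
        mv cs (b02 cs) [0, 1, 2, 1, 2, 0, 1, 2, 0, 1] [1, 2, 1]

theorem w0_start2 : cs.wordProd [0, 1, 2, 0, 1, 2, 0, 1, 2, 0, 1, 2, 0, 1, 2] =
    cs.wordProd [2, 0, 1, 2, 1, 2, 0, 1, 2, 1, 0, 2, 1, 2, 1] := by
  calc cs.wordProd [0, 1, 2, 0, 1, 2, 0, 1, 2, 0, 1, 2, 0, 1, 2]
      _ = cs.wordProd [0, 1, 2, 0, 1, 0, 2, 1, 2, 0, 1, 2, 0, 1, 2] :=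
        mv cs ((b02 cs).symm) [0, 1, 2, 0, 1] [1, 2, 0, 1, 2, 0, 1, 2]
      _ = cs.wordProd [0, 1, 2, 1, 0, 1, 2, 1, 2, 0, 1, 2, 0, 1, 2] :=
        mv cs (b01 cs) [0, 1, 2] [2, 1, 2, 0, 1, 2, 0, 1, 2]
      _ = cs.wordProd [0, 1, 2, 1, 0, 1, 2, 1, 2, 0, 1, 0, 2, 1, 2] :=
        mv cs ((b02 cs).symm) [0, 1, 2, 1, 0, 1, 2, 1, 2, 0, 1] [1, 2]
      _ = cs.wordProd [0, 1, 2, 1, 0, 1, 2, 1, 2, 1, 0, 1, 2, 1, 2] :=
        mv cs (b01 cs) [0, 1, 2, 1, 0, 1, 2, 1, 2] [2, 1, 2]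
      _ = cs.wordProd [0, 1, 2, 1, 0, 2, 1, 2, 1, 2, 0, 1, 2, 1, 2] :=
        mv cs (b12 cs) [0, 1, 2, 1, 0] [0, 1, 2, 1, 2]
      _ = cs.wordProd [0, 1, 2, 1, 2, 0, 1, 2, 1, 2, 0, 1, 2, 1, 2] :=
        mv cs (b02 cs) [0, 1, 2, 1] [1, 2, 1, 2, 0, 1, 2, 1, 2]
      _ = cs.wordProd [0, 1, 2, 1, 2, 0, 1, 2, 1, 0, 2, 1, 2, 1, 2] :=
        mv cs ((b02 cs).symm) [0, 1, 2, 1, 2, 0, 1, 2, 1] [1, 2, 1, 2]
      _ = cs.wordProd [0, 1, 2, 1, 2, 0, 1, 2, 1, 0, 1, 2, 1, 2, 1] :=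
        mv cs ((b12 cs).symm) [0, 1, 2, 1, 2, 0, 1, 2, 1, 0] []
      _ = cs.wordProd [0, 1, 2, 1, 2, 0, 1, 2, 0, 1, 0, 2, 1, 2, 1] :=
        mv cs ((b01 cs).symm) [0, 1, 2, 1, 2, 0, 1, 2] [2, 1, 2, 1]
      _ = cs.wordProd [0, 1, 2, 1, 2, 0, 1, 0, 2, 1, 0, 2, 1, 2, 1] :=
        mv cs ((b02 cs).symm) [0, 1, 2, 1, 2, 0, 1] [1, 0, 2, 1, 2, 1]
      _ = cs.wordProd [0, 1, 2, 1, 2, 1, 0, 1, 2, 1, 0, 2, 1, 2, 1] :=
        mv cs (b01 cs) [0, 1, 2, 1, 2] [2, 1, 0, 2, 1, 2, 1]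
      _ = cs.wordProd [0, 2, 1, 2, 1, 2, 0, 1, 2, 1, 0, 2, 1, 2, 1] :=
        mv cs (b12 cs) [0] [0, 1, 2, 1, 0, 2, 1, 2, 1]
      _ = cs.wordProd [2, 0, 1, 2, 1, 2, 0, 1, 2, 1, 0, 2, 1, 2, 1] :=
        mv cs (b02 cs) [] [1, 2, 1, 2, 0, 1, 2, 1, 0, 2, 1, 2, 1]

theorem w0_mid2 : cs.wordProd [0, 1, 2, 1, 2, 0, 1, 2, 1, 0, 2, 1, 2, 1] =
    cs.wordProd [0, 1, 2, 1, 2, 0, 1, 2, 1, 0, 2, 1, 2, 1] := rfl
theorem w0_end2 : cs.wordProd [0, 1, 2, 0, 1, 2, 0, 1, 2, 0, 1, 2, 0, 1, 2] =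
    cs.wordProd [0, 1, 2, 1, 2, 0, 1, 2, 1, 0, 2, 1, 2, 1, 2] := by
  calc cs.wordProd [0, 1, 2, 0, 1, 2, 0, 1, 2, 0, 1, 2, 0, 1, 2]
      _ = cs.wordProd [0, 1, 2, 0, 1, 0, 2, 1, 2, 0, 1, 2, 0, 1, 2] :=
        mv cs ((b02 cs).symm) [0, 1, 2, 0, 1] [1, 2, 0, 1, 2, 0, 1, 2]
      _ = cs.wordProd [0, 1, 2, 1, 0, 1, 2, 1, 2, 0, 1, 2, 0, 1, 2] :=
        mv cs (b01 cs) [0, 1, 2] [2, 1, 2, 0, 1, 2, 0, 1, 2]
      _ = cs.wordProd [0, 1, 2, 1, 0, 1, 2, 1, 2, 0, 1, 0, 2, 1, 2] :=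
        mv cs ((b02 cs).symm) [0, 1, 2, 1, 0, 1, 2, 1, 2, 0, 1] [1, 2]
      _ = cs.wordProd [0, 1, 2, 1, 0, 1, 2, 1, 2, 1, 0, 1, 2, 1, 2] :=
        mv cs (b01 cs) [0, 1, 2, 1, 0, 1, 2, 1, 2] [2, 1, 2]
      _ = cs.wordProd [0, 1, 2, 1, 0, 2, 1, 2, 1, 2, 0, 1, 2, 1, 2] :=
        mv cs (b12 cs) [0, 1, 2, 1, 0] [0, 1, 2, 1, 2]
      _ = cs.wordProd [0, 1, 2, 1, 2, 0, 1, 2, 1, 2, 0, 1, 2, 1, 2] :=
        mv cs (b02 cs) [0, 1, 2, 1] [1, 2, 1, 2, 0, 1, 2, 1, 2]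
      _ = cs.wordProd [0, 1, 2, 1, 2, 0, 1, 2, 1, 0, 2, 1, 2, 1, 2] :=
        mv cs ((b02 cs).symm) [0, 1, 2, 1, 2, 0, 1, 2, 1] [1, 2, 1, 2]

/-- The longest element. -/
def z : W := cs.wordProd [0, 1, 2, 0, 1, 2, 0, 1, 2, 0, 1, 2, 0, 1, 2]

theorem z_sq : z cs * z cs = 1 := by
  have h : z cs = (z cs)⁻¹ := by
    conv_lhs => rw [z, rev_w0]
    rw [z, ← CoxeterSystem.wordProd_reverse]
    rfl
  nth_rewrite 1 [h]
  exact inv_mul_cancel _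

theorem comm_of {u : List (Fin 3)} {s : Fin 3} (h1 : z cs = cs.wordProd (s :: u))
    (h2 : z cs = cs.wordProd (u ++ [s])) : cs.simple s * z cs = z cs * cs.simple s := by
  have e1 : cs.simple s * z cs = cs.wordProd u := by
    rw [h1, CoxeterSystem.wordProd_cons, cs.simple_mul_simple_cancel_left]
  have e2 : z cs * cs.simple s = cs.wordProd u := by
    rw [h2, CoxeterSystem.wordProd_append, CoxeterSystem.wordProd_singleton,
      cs.simple_mul_simple_cancel_right]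
  rw [e1, e2]

theorem z_comm_simple (s : Fin 3) : cs.simple s * z cs = z cs * cs.simple s := by
  fin_cases s
  · exact comm_of cs (w0_start0 cs) (w0_end0 cs)
  · exact comm_of cs (w0_start1 cs) (w0_end1 cs)
  · exact comm_of cs (w0_start2 cs) (w0_end2 cs)

theorem z_comm (w : W) : w * z cs = z cs * w := by
  induction w using cs.simple_induction with
  | simple i => exact z_comm_simple cs i
  | one => simp
  | mul x y hx hy => rw [mul_assoc, hy, ← mul_assoc, hx, mul_assoc]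

theorem pow_liftable {G : Type} [Group G] (g : G) (hg : g * g = 1) :
    CoxeterMatrix.H₃.IsLiftable (fun _ : Fin 3 => g) := by
  intro i j
  simp [hg]

/-- The parity homomorphism into `⟨z⟩`. -/
def zeta : W →* W := cs.lift ⟨fun _ => z cs, pow_liftable _ (z_sq cs)⟩

theorem zeta_simple (i : Fin 3) : zeta cs (cs.simple i) = z cs :=
  cs.lift_apply_simple (pow_liftable _ (z_sq cs)) i

theorem r2_sq : (DihedralGroup.r 2 : DihedralGroup 4) * DihedralGroup.r 2 = 1 := by decide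

/-- The parity homomorphism into `D₈`. -/
def delta : W →* DihedralGroup 4 :=
  cs.lift ⟨fun _ => DihedralGroup.r 2, pow_liftable _ r2_sq⟩

theorem delta_simple (i : Fin 3) : delta cs (cs.simple i) = DihedralGroup.r 2 :=
  cs.lift_apply_simple (pow_liftable _ r2_sq) i

theorem parity (w : W) : (delta cs w = 1 ∧ zeta cs w = 1) ∨
    (delta cs w = DihedralGroup.r 2 ∧ zeta cs w = z cs) := by
  induction w using cs.simple_induction with
  | simple i => exact Or.inr ⟨delta_simple cs i, zeta_simple cs i⟩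
  | one => exact Or.inl ⟨map_one _, map_one _⟩
  | mul x y hx hy =>
    rw [map_mul, map_mul]
    rcases hx with ⟨h1, h2⟩ | ⟨h1, h2⟩ <;> rcases hy with ⟨h3, h4⟩ | ⟨h3, h4⟩ <;>
      rw [h1, h2, h3, h4]
    · left; simp
    · right; simp
    · right; simp
    · left; exact ⟨r2_sq, z_sq cs⟩

theorem delta_z : delta cs (z cs) = DihedralGroup.r 2 := by
  rw [z]
  simp only [CoxeterSystem.wordProd_cons, CoxeterSystem.wordProd_nil, map_mul, delta_simple,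
    map_one]
  decide

theorem zeta_z : zeta cs (z cs) = z cs := by
  rcases parity cs (z cs) with h | h
  · rw [delta_z] at h
    exact absurd h.1 (by decide)
  · exact h.2

/-- The rotation subgroup. -/
def L : Subgroup W :=
  Subgroup.closure {cs.simple 0 * cs.simple 2, cs.simple 2 * cs.simple 1}

theorem mem02 : cs.simple 0 * cs.simple 2 ∈ L cs := Subgroup.subset_closure (by simp)

theorem mem21 : cs.simple 2 * cs.simple 1 ∈ L cs := Subgroup.subset_closure (by simp)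

theorem mem01 : cs.simple 0 * cs.simple 1 ∈ L cs := by
  have := (L cs).mul_mem (mem02 cs) (mem21 cs)
  rw [mul_assoc, cs.simple_mul_simple_cancel_left] at this
  exact this

theorem mem_swap {i j : Fin 3} (h : cs.simple i * cs.simple j ∈ L cs) :
    cs.simple j * cs.simple i ∈ L cs := by
  have := (L cs).inv_mem h
  rwa [mul_inv_rev, cs.inv_simple, cs.inv_simple] at this

theorem mem_pair (i j : Fin 3) : cs.simple i * cs.simple j ∈ L cs := by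
  have hself : ∀ i, cs.simple i * cs.simple i ∈ L cs := fun i => by
    rw [cs.simple_mul_simple_self]; exact one_mem _
  fin_cases i <;> fin_cases j
  · exact hself 0
  · exact mem01 cs
  · exact mem02 cs
  · exact mem_swap cs (mem01 cs)
  · exact hself 1
  · exact mem_swap cs (mem21 cs)
  · exact mem_swap cs (mem02 cs)
  · exact mem21 cs
  · exact hself 2

theorem mem_L_of (w : W) : (delta cs w = 1 → w ∈ L cs) ∧
    (delta cs w = DihedralGroup.r 2 → w * cs.simple 0 ∈ L cs) := by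
  induction w using cs.simple_induction_right with
  | one =>
    refine ⟨fun _ => one_mem _, fun h => ?_⟩
    rw [map_one] at h
    exact absurd h (by decide)
  | mul_simple_right w i ih =>
    rw [map_mul, delta_simple]
    have hr : (DihedralGroup.r 2 : DihedralGroup 4) ≠ 1 := by decide
    rcases parity cs w with ⟨h1, -⟩ | ⟨h1, -⟩
    · refine ⟨fun h => ?_, fun _ => ?_⟩
      · rw [h1, one_mul] at h
        exact absurd h hr
      · rw [mul_assoc]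
        exact (L cs).mul_mem (ih.1 h1) (mem_pair cs i 0)
    · refine ⟨fun _ => ?_, fun h => ?_⟩
      · have := (L cs).mul_mem (ih.2 h1) (mem_pair cs 0 i)
        rwa [mul_assoc, cs.simple_mul_simple_cancel_left] at this
      · rw [h1, r2_sq] at h
        exact absurd h.symm hr

theorem delta_L {l : W} (hl : l ∈ L cs) : delta cs l = 1 := by
  have : L cs ≤ (delta cs).ker := by
    rw [L, Subgroup.closure_le]
    rintro x (rfl | rfl) <;>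
      · show delta cs _ = 1
        rw [map_mul, delta_simple, delta_simple, r2_sq]
  exact this hl

theorem zeta_L {l : W} (hl : l ∈ L cs) : zeta cs l = 1 := by
  rcases parity cs l with h | h
  · exact h.2
  · rw [delta_L cs hl] at h
    exact absurd h.1 (by decide)

/-- The projection to the rotation subgroup. -/
def proj : W →* L cs where
  toFun w := ⟨w * zeta cs w, by
    apply (mem_L_of cs _).1
    rw [map_mul]
    rcases parity cs w with ⟨h1, h2⟩ | ⟨h1, h2⟩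
    · rw [h1, h2, map_one, mul_one]
    · rw [h1, h2, delta_z, r2_sq]⟩
  map_one' := by
    apply Subtype.ext
    simp
  map_mul' x y := by
    apply Subtype.ext
    show x * y * zeta cs (x * y) = (x * zeta cs x) * (y * zeta cs y)
    rw [map_mul]
    rcases parity cs x with ⟨-, h2⟩ | ⟨-, h2⟩
    · rw [h2]; simp [mul_assoc]
    · rw [h2]
      have := z_comm cs y
      calc x * y * (z cs * zeta cs y) = x * (y * z cs) * zeta cs y := by simp only [mul_assoc]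
        _ = x * z cs * (y * zeta cs y) := by rw [this]; simp only [mul_assoc]

theorem proj_val (w : W) : (proj cs w : W) = w * zeta cs w := rfl

/-- The rotation subgroup is perfect. -/
theorem L_perfect : commutator (L cs) = ⊤ := by
  -- the two generators
  set P : L cs := ⟨cs.simple 0 * cs.simple 2, mem02 cs⟩ with hP
  set Q : L cs := ⟨cs.simple 2 * cs.simple 1, mem21 cs⟩ with hQ
  have hP2 : P ^ 2 = 1 := by
    apply Subtype.ext
    have : (cs.simple 0 * cs.simple 2) ^ 2 = 1 := cs.simple_mul_simple_pow 0 2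
    simpa using this
  have hQ5 : Q ^ 5 = 1 := by
    apply Subtype.ext
    have : (cs.simple 2 * cs.simple 1) ^ 5 = 1 := cs.simple_mul_simple_pow 2 1
    simpa using this
  have hPQ : (P * Q) ^ 3 = 1 := by
    apply Subtype.ext
    have : (cs.simple 0 * cs.simple 1) ^ 3 = 1 := cs.simple_mul_simple_pow 0 1
    have e : cs.simple 0 * cs.simple 2 * (cs.simple 2 * cs.simple 1) =
        cs.simple 0 * cs.simple 1 := by
      rw [mul_assoc, cs.simple_mul_simple_cancel_left]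
    show (cs.simple 0 * cs.simple 2 * (cs.simple 2 * cs.simple 1)) ^ 3 = 1
    rw [e, this]
  have key : ∀ (A : Type) [CommGroup A] (p q : A), p ^ 2 = 1 → q ^ 5 = 1 → (p * q) ^ 3 = 1 →
      p = 1 ∧ q = 1 := by
    intro A _ p q h1 h2 h3
    have h4 : p * q ^ 3 = 1 := by
      have : p ^ 3 * q ^ 3 = 1 := by rw [← mul_pow]; exact h3
      calc p * q ^ 3 = p ^ 2 * p * q ^ 3 := by rw [h1, one_mul]
        _ = p ^ 3 * q ^ 3 := by rw [← pow_succ]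
        _ = 1 := this
    have h5 : q = 1 := by
      have : (p * q ^ 3) ^ 2 = 1 := by rw [h4, one_pow]
      rw [mul_pow, h1, one_mul, ← pow_mul] at this
      calc q = q ^ 5 * q := by rw [h2, one_mul]
        _ = q ^ (3 * 2) := by rw [← pow_succ]
        _ = 1 := this
    rw [h5] at h4
    exact ⟨by simpa using h4, h5⟩
  have hab : ∀ x : L cs, (Abelianization.of x : Abelianization (L cs)) = 1 := by
    have hp := key (Abelianization (L cs)) (Abelianization.of P) (Abelianization.of Q)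
      (by rw [← map_pow, hP2, map_one]) (by rw [← map_pow, hQ5, map_one])
      (by rw [← map_mul, ← map_pow, hPQ, map_one])
    have htop : Subgroup.closure ({P, Q} : Set (L cs)) = ⊤ := by
      have h1 := Subgroup.closure_closure_coe_preimage
        (k := ({cs.simple 0 * cs.simple 2, cs.simple 2 * cs.simple 1} : Set W))
      have h2 : ((↑) ⁻¹' ({cs.simple 0 * cs.simple 2, cs.simple 2 * cs.simple 1} : Set W) :
          Set (Subgroup.closure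
            ({cs.simple 0 * cs.simple 2, cs.simple 2 * cs.simple 1} : Set W))) =
          ({P, Q} : Set (L cs)) := by
        ext x
        constructor
        · rintro (h | h)
          · left; exact Subtype.ext h
          · right; exact Subtype.ext h
        · rintro (h | h)
          · left; rw [h]
          · right; rw [h]; rfl
      rw [h2] at h1
      exact h1
    intro x
    have hx : x ∈ Subgroup.closure ({P, Q} : Set (L cs)) := by rw [htop]; trivial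
    have hle : Subgroup.closure ({P, Q} : Set (L cs)) ≤
        (Abelianization.of (G := L cs)).ker := by
      rw [Subgroup.closure_le]
      rintro y (rfl | rfl)
      · exact hp.1
      · exact hp.2
    exact hle hx
  rw [eq_top_iff]
  intro x _
  have := hab x
  rwa [← MonoidHom.mem_ker, Abelianization.ker_of] at this

theorem comm_D4 : commutator (DihedralGroup 4) = Subgroup.zpowers (DihedralGroup.r 2) := by
  apply le_antisymm
  · rw [commutator_def, Subgroup.commutator_le]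
    intro x _ y _
    have : ∀ x y : DihedralGroup 4, ⁅x, y⁆ = 1 ∨ ⁅x, y⁆ = DihedralGroup.r 2 := by decide
    rcases this x y with h | h
    · rw [h]; exact one_mem _
    · rw [h]; exact Subgroup.mem_zpowers _
  · rw [Subgroup.zpowers_le]
    have : (DihedralGroup.r 2 : DihedralGroup 4) =
        ⁅(DihedralGroup.r 1 : DihedralGroup 4), DihedralGroup.sr 0⁆ := by
      decide
    rw [this]
    exact Subgroup.commutator_mem_commutator (Subgroup.mem_top _) (Subgroup.mem_top _)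

/-- The embedding of `W` in the group `L × D₈`. -/
def emb : W →* L cs × DihedralGroup 4 := (proj cs).prod (delta cs)

theorem emb_injective : Function.Injective (emb cs) := by
  rw [injective_iff_map_eq_one]
  intro w hw
  have h1 : proj cs w = 1 := congrArg Prod.fst hw
  have h2 : delta cs w = 1 := congrArg Prod.snd hw
  have h3 : w * zeta cs w = 1 := by rw [← proj_val, h1]; rfl
  rcases parity cs w with h | h
  · rwa [h.2, mul_one] at h3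
  · rw [h2] at h
    exact absurd h.1 (by decide)

theorem emb_range : (emb cs).range = commutator (L cs × DihedralGroup 4) := by
  have hc : commutator (L cs × DihedralGroup 4) =
      (⊤ : Subgroup (L cs)).prod (Subgroup.zpowers (DihedralGroup.r 2)) := by
    rw [commutator_def, ← Subgroup.top_prod_top, Subgroup.commutator_prod_prod, ← commutator_def,
      ← commutator_def, L_perfect, comm_D4]
  rw [hc]
  apply le_antisymm
  · rintro _ ⟨w, rfl⟩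
    refine Subgroup.mem_prod.2 ⟨Subgroup.mem_top _, ?_⟩
    show delta cs w ∈ _
    rcases parity cs w with h | h
    · rw [h.1]; exact one_mem _
    · rw [h.1]; exact Subgroup.mem_zpowers _
  · rintro ⟨l, d⟩ h
    have hd : d ∈ Subgroup.zpowers (DihedralGroup.r 2 : DihedralGroup 4) :=
      (Subgroup.mem_prod.1 h).2
    have hd' : d = 1 ∨ d = DihedralGroup.r 2 := by
      obtain ⟨k, rfl⟩ := Subgroup.mem_zpowers_iff.1 hd
      rcases Int.even_or_odd' k with ⟨m, hm | hm⟩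
      · left
        rw [hm, zpow_mul, zpow_ofNat, sq, r2_sq, one_zpow]
      · right
        rw [hm, zpow_add, zpow_mul, zpow_ofNat, sq, r2_sq, one_zpow, zpow_one, one_mul]
    rcases hd' with rfl | rfl
    · refine ⟨(l : W), ?_⟩
      refine Prod.ext (Subtype.ext ?_) ?_
      · show (l : W) * zeta cs (l : W) = l
        rw [zeta_L cs l.2, mul_one]
      · exact delta_L cs l.2
    · refine ⟨(l : W) * z cs, ?_⟩
      refine Prod.ext (Subtype.ext ?_) ?_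
      · show (l : W) * z cs * zeta cs ((l : W) * z cs) = l
        rw [map_mul, zeta_L cs l.2, one_mul, zeta_z, mul_assoc, z_sq, mul_one]
      · show delta cs ((l : W) * z cs) = _
        rw [map_mul, delta_L cs l.2, one_mul, delta_z]

end

/-- `W(H₃)` is not abelian. -/
theorem nonabelian : ∃ x y : CoxeterMatrix.H₃.Group, x * y ≠ y * x := by
  let f : Fin 3 → Equiv.Perm (Fin 5) := ![Equiv.swap 1 2 * Equiv.swap 3 4, Equiv.swap 0 1 * Equiv.swap 3 4,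
    Equiv.swap 1 3 * Equiv.swap 2 4]
  have hf : CoxeterMatrix.H₃.IsLiftable f := by
    intro i j
    fin_cases i <;> fin_cases j <;> decide
  let cs := CoxeterMatrix.H₃.toCoxeterSystem
  refine ⟨cs.simple 0, cs.simple 1, fun h => ?_⟩
  have h1 := congrArg (cs.lift ⟨f, hf⟩) h
  rw [map_mul, map_mul, cs.lift_apply_simple hf, cs.lift_apply_simple hf] at h1
  revert h1
  decide

/-- **Answer to Q1 (disproof).**  There is a Coxeter group with connected Coxeter diagram, not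
isomorphic to `C₂`, which is isomorphic to the derived subgroup of some group; in fact the finite
Coxeter group of type `H₃` is one. -/
theorem result : (diagram CoxeterMatrix.H₃).Connected ∧
    IsEmpty (CoxeterMatrix.H₃.Group ≃* Multiplicative (ZMod 2)) ∧
    ∃ (H : Type) (_ : Group H), Nonempty (commutator H ≃* CoxeterMatrix.H₃.Group) := by
  refine ⟨?_, ?_, ?_⟩
  · have h01 : (diagram CoxeterMatrix.H₃).Adj 0 1 := ⟨by decide, by decide⟩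
    have h12 : (diagram CoxeterMatrix.H₃).Adj 1 2 := ⟨by decide, by decide⟩
    refine ⟨fun u v => ?_⟩
    have key : ∀ u : Fin 3, (diagram CoxeterMatrix.H₃).Reachable u 1 := by
      intro u
      fin_cases u
      · exact h01.reachable
      · exact SimpleGraph.Reachable.refl _
      · exact h12.symm.reachable
    exact (key u).trans (key v).symm
  · constructor
    intro e
    obtain ⟨x, y, h⟩ := nonabelian
    apply h
    apply e.injective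
    rw [map_mul, map_mul, mul_comm]
  · let cs := CoxeterMatrix.H₃.toCoxeterSystem
    refine ⟨L cs × DihedralGroup 4, inferInstance, ⟨?_⟩⟩
    rw [← emb_range cs]
    exact (MonoidHom.ofInjective (emb_injective cs)).symm

end Pool.Agent.Results.MP_417677_al.IntegrableH3
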